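import Mathlib
import Pool.Agent.Q172.Exc.Length

set_option autoImplicit false

open Set

noncomputable section

namespace Pool.Agent.Results.MP_5069ae_gt.LongExcursions

/-- The length that the curve `γ` spends outside `K`: the sum, over the connected components `J` of
the open set of parameters `t` with `γ t ∉ K`, of the length (total variation) of the restriction
of `γ` to `J`. -/
def lengthOutside {E : Type} [PseudoEMetricSpace E] (γ : unitInterval → E) (K : Set E) : ENNReal :=
  ∑' J : {J : Set unitInterval // ∃ t ∈ γ ⁻¹' Kᶜ, J = connectedComponentIn (γ ⁻¹' Kᶜ) t},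
    eVariationOn γ J.1

open Q172.Exc in
/-- For every `n ≥ 3` there are a compact connected set `K` in Euclidean `n`-space and points `p`,
`q` of `K` such that every curve from `p` to `q` spends at least length `1 / 64` outside `K`. -/
theorem result (n : ℕ) (hn : 3 ≤ n) :
    ∃ (K : Set (EuclideanSpace ℝ (Fin n))) (p q : EuclideanSpace ℝ (Fin n)),
      IsCompact K ∧ IsConnected K ∧ p ∈ K ∧ q ∈ K ∧
      ∀ γ : Path p q, ENNReal.ofReal (1 / 64) ≤ lengthOutside γ K := by
  classical
  let i0 : Fin n := ⟨0, by omega⟩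
  let i1 : Fin n := ⟨1, by omega⟩
  let i2 : Fin n := ⟨2, by omega⟩
  have h01 : i1 ≠ i0 := by simp [i0, i1]
  have h02 : i2 ≠ i0 := by simp [i0, i2]
  have h12 : i2 ≠ i1 := by simp [i1, i2]
  let ι : (ℝ × ℝ) × ℝ → EuclideanSpace ℝ (Fin n) := fun v =>
    WithLp.toLp 2 (fun i => if i = i0 then v.1.1 else if i = i1 then v.1.2 else
      if i = i2 then v.2 else 0)
  have hι0 : ∀ v, (ι v) i0 = v.1.1 := fun v => by simp [ι]
  have hι1 : ∀ v, (ι v) i1 = v.1.2 := fun v => by simp [ι, h01]
  have hι2 : ∀ v, (ι v) i2 = v.2 := fun v => by simp [ι, h02, h12]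
  have hιc : Continuous ι := by
    refine (PiLp.continuous_toLp 2 _).comp (continuous_pi fun i => ?_)
    by_cases h0 : i = i0
    · simp only [h0, if_true]; fun_prop
    · by_cases h1 : i = i1
      · simp only [h1, h01, if_true, if_false]; fun_prop
      · by_cases h2 : i = i2
        · simp only [h2, h02, h12, if_true, if_false]; fun_prop
        · simp only [h0, h1, h2, if_false]; fun_prop
  have hp : ((0, 0), (0 : ℝ)) ∈ K3 := by
    have : ptp 0 0 = (0, 0) := by simp [ptp, X, Y]
    rw [← this]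
    exact vert_mem (ptp_mem (by norm_num)) ⟨le_rfl, zero_le_one⟩
  have hq : ((1, 1), (0 : ℝ)) ∈ K3 := by
    have : ptm 0 1 = (1, 1) := by simp [ptm, X, Y]
    rw [← this]
    exact vert_mem (ptm_mem le_rfl (by norm_num)) ⟨le_rfl, zero_le_one⟩
  refine ⟨ι '' K3, ι ((0, 0), 0), ι ((1, 1), 0), K3_compact.image hιc,
    K3_connected.image ι hιc.continuousOn, ⟨_, hp, rfl⟩, ⟨_, hq, rfl⟩, ?_⟩
  intro γ
  have hcoord : ∀ (i : Fin n), Continuous fun s => (γ s) i := fun i =>
    (EuclideanSpace.proj (𝕜 := ℝ) i).continuous.comp γ.continuous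
  have hdist : ∀ (i : Fin n) (s t : unitInterval), |(γ s) i - (γ t) i| ≤ dist (γ s) (γ t) := by
    intro i s t
    rw [dist_eq_norm]
    exact PiLp.norm_apply_le (γ s - γ t) i
  refine main (γ := γ) (c := fun s => ((γ s) i0, (γ s) i1)) (H := fun s => (γ s) i2) γ.continuous
    ((hcoord i0).prodMk (hcoord i1)) (hcoord i2) (hdist i0) (hdist i1) ?_ ?_ ?_
  · rintro s ⟨v, hv, hvs⟩
    have : ((((γ s) i0, (γ s) i1), (γ s) i2) : (ℝ × ℝ) × ℝ) = v := by
      rw [← hvs, hι0, hι1, hι2]
    rw [this]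
    exact hv
  · show F ((γ 0) i0, (γ 0) i1) = 0
    rw [γ.source, hι0, hι1]
    norm_num [F]
  · show F ((γ 1) i0, (γ 1) i1) = 1
    rw [γ.target, hι0, hι1]
    norm_num [F]

end Pool.Agent.Results.MP_5069ae_gt.LongExcursions
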